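import Mathlib
import Pool.Agent.H.MP_2869d0_nt.A
import Pool.Agent.Results.MP_c292ad_nt.Yes

namespace Pool.Agent.Results.MP_6f4751_nt.Q1

open Nat Finset Pool.Agent.H.MP_2869d0_nt

/-- `R_{n,r}` of the problem -/
def R (n r : ℕ) : ℚ :=
  ∑ k ∈ range (n + 1),
    ((n + k).choose (2 * k) : ℚ) * ((2 * k).choose k : ℚ) * (1 / (2 * k - 2 * r - 1))

/-- `S_{n,r}` of the problem -/
def S (n r : ℕ) : ℚ := ∑ k ∈ range n, (2 * (k : ℚ) + 1) * R k r ^ 2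

def ψ (n k : ℕ) : ℚ := ((n + k).choose (2 * k) : ℚ) * ((2 * k).choose k : ℚ)

lemma ψ_iv (n k : ℕ) : ψ n k = (n + k)! * iv k ^ 2 * iv ((n : ℤ) - k) := by
  unfold ψ
  rw [choose_iv, choose_iv, iv_nat (2 * k)]
  push_cast
  rw [show (n : ℤ) + k - 2 * k = n - k by ring, show 2 * (k : ℤ) - k = k by ring]
  field_simp

lemma ψ_N (n k : ℕ) : n * (n + 1) * ψ n k = (k + 1) ^ 2 * ψ n (k + 1) + k * (k + 1) * ψ n k := by
  rw [ψ_iv, ψ_iv, ← add_assoc, factorial_succ, iv_succ k]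
  have := iv_succ ((n : ℤ) - (k + 1))
  rw [show (n : ℤ) - (k + 1) + 1 = n - k by ring] at this
  push_cast at this ⊢
  rw [this]
  ring

lemma ψ_L (n k : ℕ) : (n + 1) * ψ (n + 1) (k + 1) + n * ψ (n - 1) (k + 1) - (2 * n + 1) * ψ n (k + 1)
    = 2 * (2 * n + 1) * ψ n k := by
  cases n with
  | zero =>
    cases k with
    | zero => simp [ψ]
    | succ k =>
      simp only [ψ]
      rw [Nat.choose_eq_zero_of_lt (n := 0 + 1 + (k + 1 + 1)) (by omega),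
        Nat.choose_eq_zero_of_lt (n := 0 + (k + 1 + 1)) (by omega),
        Nat.choose_eq_zero_of_lt (n := 0 + (k + 1)) (by omega)]
      simp
  | succ n =>
    have a1 := iv_succ ((n : ℤ) - (k + 1))
    have a2 := iv_succ ((n : ℤ) - k)
    rw [show (n : ℤ) - (k + 1) + 1 = n - k by ring] at a1
    rw [Nat.add_sub_cancel, ψ_iv, ψ_iv, ψ_iv, ψ_iv,
      show n + 1 + 1 + (k + 1) = n + k + 1 + 1 + 1 by ring,
      show n + 1 + (k + 1) = n + k + 1 + 1 by ring, show n + (k + 1) = n + k + 1 by ring,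
      show n + 1 + k = n + k + 1 by ring, factorial_succ (n + k + 1 + 1), factorial_succ (n + k + 1),
      iv_succ k]
    push_cast at a1 a2 ⊢
    rw [show (n : ℤ) + 1 + 1 - (k + 1) = n - k + 1 by ring,
      show (n : ℤ) + 1 - (k + 1) = n - k by ring, show (n : ℤ) + 1 - k = n - k + 1 by ring, a1, a2]
    ring

def T (g : ℕ → ℚ) (n : ℕ) : ℚ := ∑ k ∈ range (n + 1), ψ n k * g k

lemma T_ext (g : ℕ → ℚ) (n L : ℕ) (h : n < L) : ∑ k ∈ range L, ψ n k * g k = T g n := by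
  refine (sum_subset (range_subset_range.2 h) fun m _ hm => ?_).symm
  rw [ψ, Nat.choose_eq_zero_of_lt (by simp at hm; omega)]
  simp

def IsL (u u' : ℕ → ℚ) : Prop :=
  ∀ n : ℕ, (n + 1) * u (n + 1) + n * u (n - 1) - (2 * n + 1) * u n = 2 * (2 * n + 1) * u' n

lemma T_L (g : ℕ → ℚ) : IsL (T g) (T fun k => g (k + 1)) := fun n => by
  rw [← T_ext g (n - 1) (n + 2) (by omega), ← T_ext g n (n + 2) (by omega), T, T, mul_sum, mul_sum,
    mul_sum, mul_sum, ← sum_add_distrib, ← sum_sub_distrib, sum_range_succ']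
  have : ∀ m, ψ m 0 = 1 := fun m => by simp [ψ]
  rw [this, this, this, show ((n : ℚ) + 1) * (1 * g 0) + n * (1 * g 0) - (2 * n + 1) * (1 * g 0) = 0
    by ring, add_zero]
  exact sum_congr rfl fun k _ => by linear_combination g (k + 1) * ψ_L n k

lemma T_N (g : ℕ → ℚ) (n : ℕ) :
    n * (n + 1) * T g n = T (fun k => k * (k + 1) * g k + k ^ 2 * g (k - 1)) n := by
  rw [← T_ext (fun k => k * (k + 1) * g k + k ^ 2 * g (k - 1)) n (n + 2) (by omega)]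
  simp only [mul_add (ψ _ _)]
  rw [sum_add_distrib, T_ext (fun k => k * (k + 1) * g k) n (n + 2) (by omega), sum_range_succ', T, T,
    mul_sum]
  simp only [Nat.cast_zero, Nat.add_sub_cancel]
  rw [zero_pow two_ne_zero, zero_mul, mul_zero, add_zero, ← sum_add_distrib]
  exact sum_congr rfl fun k _ => by push_cast; linear_combination g k * ψ_N n k

def ρ (r : ℤ) : ℕ → ℚ := T fun k => 1 / (2 * k - 2 * r - 1)
def D : ℕ → ℚ := T fun _ => 1
def E : ℕ → ℚ := T fun k => k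

lemma ρ_L (r : ℤ) : IsL (ρ (r + 1)) (ρ r) := by
  have e : ρ r = T fun k => 1 / (2 * ((k + 1 : ℕ) : ℚ) - 2 * ((r + 1 : ℤ) : ℚ) - 1) := by
    unfold ρ
    congr 1
    funext k
    push_cast
    ring
  rw [e]
  exact T_L _

lemma D_L : IsL D D := T_L fun _ => 1

lemma E_L : IsL E (E + D) := by
  have e : E + D = T fun k => ((k + 1 : ℕ) : ℚ) := by
    funext n
    simp only [Pi.add_apply, E, D, T]
    rw [← sum_add_distrib]
    exact sum_congr rfl fun k _ => by push_cast; ring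
  rw [e]
  exact T_L _

lemma ρ_N (r : ℤ) (n : ℕ) : n * (n + 1) * ρ r n = (2 * r + 1) * (2 * r + 3) / 4 * ρ r n +
    (2 * r + 3) ^ 2 / 4 * ρ (r + 1) n + E n + (2 * r + 3) / 2 * D n := by
  rw [ρ, T_N]
  simp only [ρ, E, D, T, mul_sum]
  rw [← sum_add_distrib, ← sum_add_distrib, ← sum_add_distrib]
  refine sum_congr rfl fun k _ => ?_
  have h0 : ((2 * k - 2 * r - 1 : ℤ) : ℚ) ≠ 0 := Int.cast_ne_zero.2 (by omega)
  have h1 : ((2 * k - 2 * (r + 1) - 1 : ℤ) : ℚ) ≠ 0 := Int.cast_ne_zero.2 (by omega)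
  have h2 : (k : ℚ) ^ 2 * (1 / (2 * ((k - 1 : ℕ) : ℚ) - 2 * r - 1)) =
      k ^ 2 * (1 / (2 * k - 2 * (r + 1) - 1)) := by
    cases k with
    | zero => simp
    | succ k => rw [Nat.add_sub_cancel]; push_cast; ring
  rw [h2]
  push_cast at h0 h1 ⊢
  linear_combination ψ n k * (2 * k + 2 * r + 3) / 4 * one_div_mul_cancel h0 +
    ψ n k * (2 * k + 2 * r + 3) / 4 * one_div_mul_cancel h1

def B (u v : ℕ → ℚ) : ℕ → ℚ := fun n => ∑ k ∈ range n, (2 * (k : ℚ) + 1) * (u k * v k)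

lemma green {u u' v v' : ℕ → ℚ} (hu : IsL u u') (hv : IsL v v') (n : ℕ) :
    B u' v n - B u v' n = n * (1 / 2 * (u n * v (n - 1) - u (n - 1) * v n)) := by
  induction n with
  | zero => simp [B]
  | succ n ih =>
    simp only [B, sum_range_succ, Nat.add_sub_cancel] at ih ⊢
    push_cast
    linear_combination ih - v n / 2 * hu n + u n / 2 * hv n

def Bd : Subalgebra ℚ (ℕ → ℚ) where
  carrier := {u | ∃ M : ℤ, M ≠ 0 ∧ ∀ n, ∃ z : ℤ, M * u n = z}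
  mul_mem' := by
    rintro u v ⟨M, hM, h⟩ ⟨N, hN, h'⟩
    refine ⟨M * N, mul_ne_zero hM hN, fun n => ?_⟩
    obtain ⟨z, hz⟩ := h n
    obtain ⟨w, hw⟩ := h' n
    exact ⟨z * w, by push_cast; rw [← hz, ← hw, Pi.mul_apply]; ring⟩
  add_mem' := by
    rintro u v ⟨M, hM, h⟩ ⟨N, hN, h'⟩
    refine ⟨M * N, mul_ne_zero hM hN, fun n => ?_⟩
    obtain ⟨z, hz⟩ := h n
    obtain ⟨w, hw⟩ := h' n
    exact ⟨N * z + M * w, by push_cast; rw [← hz, ← hw, Pi.add_apply]; ring⟩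
  algebraMap_mem' := fun q => ⟨q.den, by exact_mod_cast q.den_nz, fun n => ⟨q.num, by simp⟩⟩

lemma Bd_int (f : ℕ → ℤ) : (fun n => (f n : ℚ)) ∈ Bd := ⟨1, one_ne_zero, fun n => ⟨f n, by simp⟩⟩

lemma Bd_sh {u : ℕ → ℚ} (h : u ∈ Bd) : (fun n => u (n - 1)) ∈ Bd := by
  obtain ⟨M, hM, h⟩ := h
  exact ⟨M, hM, fun n => h _⟩

lemma T_Bd (g : ℕ → ℕ) : T (fun k => g k) ∈ Bd := by
  convert Bd_int fun n => ∑ k ∈ range (n + 1), (n + k).choose (2 * k) * (2 * k).choose k * g k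
    using 2 with n
  simp [T, ψ]

lemma D_Bd : D ∈ Bd := by simpa [D] using T_Bd fun _ => 1
lemma E_Bd : E ∈ Bd := T_Bd fun k => k

lemma ρ_zero (n : ℕ) : ρ 0 n = MP_c292ad_nt.Yes.r n := by
  rw [← MP_c292ad_nt.Yes.R_eq]
  simp [ρ, T, ψ, MP_c292ad_nt.Yes.R]

lemma ρ_Bd (r : ℕ) : ρ r ∈ Bd := by
  induction r with
  | zero => convert Bd_int MP_c292ad_nt.Yes.r using 2 with n; exact ρ_zero n
  | succ r ih =>
    have h := Bd.smul_mem (Bd.sub_mem (Bd.sub_mem (Bd.sub_mem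
      (Bd.mul_mem (Bd_int fun n => n * (n + 1)) ih)
      (Bd.smul_mem ih ((2 * r + 1) * (2 * r + 3) / 4 : ℚ))) E_Bd)
      (Bd.smul_mem D_Bd ((2 * r + 3) / 2 : ℚ))) (4 / (2 * r + 3) ^ 2 : ℚ)
    convert h using 1
    funext n
    have := ρ_N r n
    simp only [Pi.smul_apply, Pi.sub_apply, Pi.mul_apply, smul_eq_mul]
    push_cast at this ⊢
    rw [this]
    field_simp
    ring

def I : Submodule ℚ (ℕ → ℚ) where
  carrier := {s | ∃ t ∈ Bd, ∀ n : ℕ, s n = n * t n}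
  add_mem' := by
    rintro s s' ⟨t, ht, h⟩ ⟨t', ht', h'⟩
    exact ⟨t + t', Bd.add_mem ht ht', fun n => by simp [h, h', mul_add]⟩
  zero_mem' := ⟨0, Bd.zero_mem, fun n => by simp⟩
  smul_mem' := by
    rintro c s ⟨t, ht, h⟩
    exact ⟨c • t, Bd.smul_mem ht c, fun n => by simp [h]; ring⟩

def β (u v : ℕ → ℚ) : (ℕ → ℚ) ⧸ I := I.mkQ (B u v)

lemma β_L {u u' v v' : ℕ → ℚ} (hu : IsL u u') (hv : IsL v v') (bu : u ∈ Bd) (bv : v ∈ Bd) :
    β u' v = β u v' :=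
  (Submodule.Quotient.eq I).2 ⟨_, Bd.smul_mem (Bd.sub_mem (Bd.mul_mem bu (Bd_sh bv))
    (Bd.mul_mem (Bd_sh bu) bv)) (1 / 2 : ℚ), fun n => green hu hv n⟩

lemma β_E (r : ℕ) : β (ρ (r - 1)) E = β (ρ r) E + β (ρ r) D := by
  have h := ρ_L (r - 1)
  rw [sub_add_cancel] at h
  rw [β_L h E_L (ρ_Bd r) E_Bd, β, β, β, ← map_add]
  congr 1
  funext n
  simp only [B, Pi.add_apply]
  rw [← sum_add_distrib]
  exact sum_congr rfl fun k _ => by ring

lemma β_D (r : ℕ) : β (ρ (r - 1)) D = β (ρ r) D := by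
  have h := ρ_L (r - 1)
  rw [sub_add_cancel] at h
  exact β_L h D_L (ρ_Bd r) D_Bd

lemma β_ρ (r s : ℕ) : β (ρ (r - 1)) (ρ (s + 1)) = β (ρ r) (ρ s) := by
  have h := ρ_L (r - 1)
  rw [sub_add_cancel] at h
  exact β_L h (ρ_L s) (ρ_Bd r) (ρ_Bd (s + 1))

lemma β_N (r s : ℤ) :
    ((2 * r + 1) * (2 * r + 3) / 4 : ℚ) • β (ρ r) (ρ s) + ((2 * r + 3) ^ 2 / 4 : ℚ) • β (ρ (r + 1)) (ρ s)
      + β (ρ s) E + ((2 * r + 3) / 2 : ℚ) • β (ρ s) D =
    ((2 * s + 1) * (2 * s + 3) / 4 : ℚ) • β (ρ r) (ρ s) + ((2 * s + 3) ^ 2 / 4 : ℚ) • β (ρ r) (ρ (s + 1))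
      + β (ρ r) E + ((2 * s + 3) / 2 : ℚ) • β (ρ r) D := by
  simp only [β, ← map_smul, ← map_add]
  congr 1
  funext n
  simp only [B, Pi.add_apply, Pi.smul_apply, smul_eq_mul, mul_sum, ← sum_add_distrib]
  exact sum_congr rfl fun k _ => by
    linear_combination (2 * k + 1) * (ρ r k * ρ_N s k - ρ s k * ρ_N r k)

lemma β_zero (r : ℕ) : β (ρ r) (ρ r) = 0 := by
  induction r with
  | zero =>
    refine (Submodule.Quotient.mk_eq_zero I).2 ⟨_, Bd.smul_mem (Bd_int fun n =>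
      MP_c292ad_nt.Yes.G1 (n : ℤ) (MP_c292ad_nt.Yes.r n) (MP_c292ad_nt.Yes.r (n - 1))
        (MP_c292ad_nt.Yes.d n) (MP_c292ad_nt.Yes.d (n - 1))) (1 / 8 : ℚ), fun n => ?_⟩
    cases n with
    | zero => simp [B]
    | succ n =>
      have h := congrArg (Int.cast : ℤ → ℚ) (MP_c292ad_nt.Yes.S1 n)
      simp only [B, Nat.cast_zero, ρ_zero, Pi.smul_apply, smul_eq_mul, Nat.add_sub_cancel, ← sq]
      push_cast at h ⊢
      linear_combination h / 8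
  | succ r ih =>
    have n1 := β_N (r - 1) (r + 1)
    have n2 := β_N r (r + 1)
    have e1 := β_E r
    have e2 := β_E (r + 1)
    have d1 := β_D r
    have d2 := β_D (r + 1)
    have p1 := β_ρ r r
    have p2 := β_ρ r (r + 1)
    have p3 := β_ρ (r + 1) (r + 1)
    push_cast at *
    simp only [add_sub_cancel_right, sub_add_cancel] at *
    rw [e1, e2, d1, d2, p1, p2, ih] at n1
    rw [e2, d2, p3] at n2
    have h : (4 * r + 8 : ℚ) • β (ρ (r + 1)) (ρ (r + 1)) = 0 := by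
      linear_combination (norm := module) n1 - (2 : ℚ) • n2
    exact (smul_eq_zero.1 h).resolve_left (by positivity)

theorem result (r : ℕ) (_hr : 0 < r) :
    ∃ a : ℤ, a ≠ 0 ∧ ∀ n : ℕ, 0 < n → ∃ m : ℤ, a * S n r = n * m := by
  obtain ⟨t, ⟨M, hM, h⟩, ht⟩ := (Submodule.Quotient.mk_eq_zero I).1 (β_zero r)
  refine ⟨M, hM, fun n _ => ?_⟩
  obtain ⟨z, hz⟩ := h n
  refine ⟨z, ?_⟩
  have : S n r = B (ρ r) (ρ r) n := by simp [S, B, R, ρ, T, ψ, sq]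
  rw [this, ht, ← hz]
  ring

end Pool.Agent.Results.MP_6f4751_nt.Q1
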